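import Pool.Agent.H97.HV.Targets4

/-!
# POW: the subsets of `V_ κ` in the class are in the model
-/

open Ordinal Cardinal Order Set
open scoped ZFSet

universe u

namespace HD.HW.H99

open HD.PRK HD.HV Pool.Agent.H54.WM

theorem pf_POW (h1 : HD.HW.T_IDC.{u}) (h2 : HD.HW.T_TSH.{u}) : HD.HW.T_POW.{u} := by
  intro γ ξ κ j h π hπ
  obtain ⟨key, -⟩ := h1 γ ξ κ j h π hπ
  have hg := h.gξ
  have hg' := h.gκ
  have main : ∀ x : ZFSet.{u}, ∀ t, π t = x → x ⊆ V_ κ → NV (min γ κ) x := by
    intro x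
    induction x using ZFSet.inductionOn with
    | _ x ih =>
      intro t ht hx
      have hy : ∀ y ∈ x, NV (min γ κ) y := by
        intro y hyx
        have h1 := hyx
        rw [← ht] at h1
        obtain ⟨s, hs⟩ := hπ.tra _ y h1
        refine ih y hyx s hs fun z hz => ?_
        have h2 := hx hyx
        rw [ZFSet.mem_vonNeumann] at h2 ⊢
        exact (ZFSet.rank_lt_of_mem hz).trans h2
      obtain ⟨B, hBdef⟩ : ∃ B, B = j (TS γ ξ (.mem 0 1) (sv [idf γ ξ, t.f])) := ⟨_, rfl⟩
      have hsv : ∀ n, NV (min γ ξ) (sv [idf γ ξ, t.f] n) := by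
        intro n
        rcases n with _ | _ | n
        · exact nv_idf hg
        · exact t.hf
        · exact nv_empty hg
      have hB : NV (min γ κ) B := by
        rw [hBdef]
        exact (h.emb.map _ ⟨h2 γ ξ hg _ _ hsv, fun w hw => HW_sub γ ξ (mem_TS.1 hw).1⟩).1
      have hME : ∀ (y : ZFSet.{u}) (hyV : y ∈ HW γ κ),
          ME j (idt hg y hyV : Tm γ ξ κ) t ↔ tup [y, t.b] ∈ B := by
        intro y hyV
        rw [hBdef]
        exact Iff.rfl
      have hmem : ∀ y, y ∈ x ↔ y ∈ HW γ κ ∧ tup [y, t.b] ∈ B := by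
        intro y
        constructor
        · intro hyx
          have hyV : y ∈ HW γ κ := mem_HW.2 ⟨hx hyx, hy y hyx⟩
          refine ⟨hyV, ?_⟩
          rw [← hME y hyV, hπ.mem, key y hyV, ht]
          exact hyx
        · rintro ⟨hyV, h1⟩
          rw [← hME y hyV, hπ.mem, key y hyV, ht] at h1
          exact h1
      refine nv_of hg' (P := fun z V b B => z ∈ V ∧ tup [z, b] ∈ B) ?_ (nv_HW hg')
        (mem_HW.1 t.hb).2 hB hmem hy
      refine (DZ.mem 0 1).and ?_
      refine (D0.exMem (R := fun p v => p = tup [v 0, v 2]) 3 (D0.tup2 0 1 3)).dz.congr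
        fun v => ?_
      simp
  exact fun t ht => main _ t rfl ht

end HD.HW.H99
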